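import Pool.Agent.W712.RP.All

/-!
Random polytopes in products of smooth convex bodies: the expected face numbers and the expected
volume deficit have the same order of magnitude as for the product of Euclidean balls.
-/

set_option autoImplicit false

namespace Pool.Agent.Results.MP_5ec613_pr.ProductPolytopes

open Pool.Agent.W712.RP MeasureTheory Filter Topology

/-- The boundary of `K` has at `p` a second order expansion with positive definite second
fundamental form: there are a unit outer normal `ν` at `p` and a bilinear form `q` (the second
fundamental form, extended to the whole space in any way), positive definite on the tangent space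
`ν^⊥`, such that for boundary points `y → p` the depth `⟪p - y, ν⟫` of `y` below the tangent
hyperplane at `p` is `q (y - p) (y - p) / 2 + o(‖y - p‖²)`. -/
def CurvedAt {E : Type} [NormedAddCommGroup E] [InnerProductSpace ℝ E] (K : Set E) (p : E) :
    Prop :=
  ∃ (ν : E) (q : E →L[ℝ] E →L[ℝ] ℝ), ‖ν‖ = 1 ∧ (∀ y ∈ K, inner ℝ (y - p) ν ≤ 0) ∧
    (∀ w : E, inner ℝ w ν = 0 → w ≠ 0 → 0 < q w w) ∧
    (fun y => inner ℝ (p - y) ν - q (y - p) (y - p) / 2) =o[𝓝[frontier K] p]
      (fun y => ‖y - p‖ ^ 2)

/-- A convex body (compact, convex, nonempty interior) with twice differentiable boundary (in the
weak sense of second order expansions) of positive Gaussian curvature at every boundary point. -/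
structure SmoothConvexBody {E : Type} [NormedAddCommGroup E] [InnerProductSpace ℝ E]
    (K : Set E) : Prop where
  convex : Convex ℝ K
  compact : IsCompact K
  interior_nonempty : (interior K).Nonempty
  curved : ∀ p ∈ frontier K, CurvedAt K p

/-- The expected volume deficit: the volume of `L` minus the expected volume of the convex hull of
`n` independent uniform points in `L`. -/
noncomputable def deficit {E : Type} [NormedAddCommGroup E] [NormedSpace ℝ E] [MeasureSpace E]
    (L : Set E) (n : ℕ) : ℝ :=
  (volume L).toReal - expVol L n

/-- The random polytopes in `L` and in `M` have expected numbers of `j`-faces of the same order for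
every `j < D`, and expected volume deficits of the same order (and all these expectations are
integrals of integrable functions). -/
def SameOrder {E : Type} [NormedAddCommGroup E] [NormedSpace ℝ E] [MeasureSpace E]
    (D : ℕ) (L M : Set E) : Prop :=
  WellDefined L ∧ WellDefined M ∧
    (∀ j < D, Asymp (fun n => expFaces L n j) (fun n => expFaces M n j)) ∧
    Asymp (deficit L) (deficit M)

/-- Let `m ≥ 1`, `d i ≥ 1` and let `K i` be a convex body in `ℝ^(d i)` with twice differentiable
boundary of positive Gaussian curvature. Then the random polytopes with `n` uniform vertices in the
product `∏ K i` and in the product `∏ B^(d i)` of Euclidean unit balls have expected numbers of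
`j`-dimensional faces of the same order, for every `j < ∑ d i`, and expected volume deficits of the
same order, as `n → ∞`. -/
theorem result (m : ℕ) (hm : 0 < m) (d : Fin m → ℕ) (hd : ∀ i, 0 < d i)
    (K : ∀ i, Set (EuclideanSpace ℝ (Fin (d i)))) (hK : ∀ i, SmoothConvexBody (K i)) :
    SameOrder (∑ i, d i) (prodBody K) (prodBall d) :=
  all m hm d hd K fun i =>
    { convex := (hK i).convex
      compact := (hK i).compact
      interior_nonempty := (hK i).interior_nonempty
      curved := (hK i).curved }

end Pool.Agent.Results.MP_5ec613_pr.ProductPolytopes
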